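import Pool.Agent.H635Z.A

set_option autoImplicit false

open Polynomial

namespace Pool.Agent.Results.MP_5c4bc0_an.RealRooted

/-- The antiderivative `∫_0^X p(t) dt` of a rational polynomial. -/
noncomputable def integral (p : ℚ[X]) : ℚ[X] := p.sum fun i a => C (a / ((i : ℚ) + 1)) * X ^ (i + 1)

/-- `L_0 = -X` and `L_{n+1} = -L_n + n ∫_0^X L_n`. -/
noncomputable def L : ℕ → ℚ[X]
  | 0 => -X
  | n + 1 => -L n + (n : ℚ[X]) * integral (L n)

/-- `F = ∑ L_n T^n`, a power series in `T` over `ℚ[X]`. -/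
noncomputable def F : PowerSeries ℚ[X] := PowerSeries.mk L

/-- `L_{n,k}`, the coefficient of `T^n` in `F^k`. -/
noncomputable def Lk (n k : ℕ) : ℚ[X] := PowerSeries.coeff n (F ^ k)

lemma derivative_integral (p : ℚ[X]) : derivative (integral p) = p := by
  unfold integral
  rw [Polynomial.sum_def, derivative_sum]
  conv_rhs => rw [p.as_sum_support_C_mul_X_pow]
  apply Finset.sum_congr rfl
  intro i _
  rw [derivative_C_mul, derivative_X_pow, Nat.add_sub_cancel, ← mul_assoc, ← C_mul]
  congr 2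
  push_cast
  field_simp

lemma integral_eval_zero (p : ℚ[X]) : (integral p).eval 0 = 0 := by
  unfold integral
  rw [Polynomial.sum_def, eval_finsetSum]
  apply Finset.sum_eq_zero
  intro i _
  simp

lemma L_eval_zero (n : ℕ) : (L n).eval 0 = 0 := by
  induction n with
  | zero => simp [L]
  | succ n ih => simp [L, ih, integral_eval_zero]

lemma L_deriv (n : ℕ) : derivative (L (n + 1)) = -derivative (L n) + (n : ℚ[X]) * L n := by
  have h : derivative ((n : ℚ[X]) * integral (L n)) = (n : ℚ[X]) * L n := by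
    rw [← C_eq_natCast, derivative_C_mul, derivative_integral]
  rw [L, derivative_add, derivative_neg, h]

section generic

variable {R : Type*} [CommRing R]

lemma gd_mul (f g : PowerSeries R) : PowerSeries.derivative R (f * g) =
    PowerSeries.derivative R f * g + f * PowerSeries.derivative R g := by
  rw [Derivation.leibniz, smul_eq_mul, smul_eq_mul]; ring

lemma gd_one : PowerSeries.derivative R (1 : PowerSeries R) = 0 :=
  Derivation.map_one_eq_zero _

lemma gd_X : PowerSeries.derivative R (PowerSeries.X : PowerSeries R) = 1 :=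
  PowerSeries.derivative_X

lemma gd_add (f g : PowerSeries R) : PowerSeries.derivative R (f + g) =
    PowerSeries.derivative R f + PowerSeries.derivative R g := map_add _ _ _

lemma gd_sub (f g : PowerSeries R) : PowerSeries.derivative R (f - g) =
    PowerSeries.derivative R f - PowerSeries.derivative R g := map_sub _ _ _

lemma gd_pow (f : PowerSeries R) (j : ℕ) : PowerSeries.derivative R (f ^ (j + 1)) =
    ((j : PowerSeries R) + 1) * f ^ j * PowerSeries.derivative R f := by
  rw [Derivation.leibniz_pow, Nat.add_sub_cancel, smul_eq_mul, nsmul_eq_mul]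
  push_cast
  ring

end generic

/-- coefficientwise derivative in `X` -/
noncomputable def dl (f : PowerSeries ℚ[X]) : PowerSeries ℚ[X] :=
  PowerSeries.mk fun n => derivative (PowerSeries.coeff n f)


lemma coeff_dl (f : PowerSeries ℚ[X]) (n : ℕ) :
    PowerSeries.coeff n (dl f) = derivative (PowerSeries.coeff n f) := by
  unfold dl; rw [PowerSeries.coeff_mk]

lemma dl_add (f g : PowerSeries ℚ[X]) : dl (f + g) = dl f + dl g := by
  ext1 n; simp [coeff_dl]

lemma dl_sub (f g : PowerSeries ℚ[X]) : dl (f - g) = dl f - dl g := by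
  ext1 n; simp [coeff_dl]

lemma dl_one : dl 1 = 0 := by
  ext1 n; rw [coeff_dl, PowerSeries.coeff_one]; split_ifs <;> simp

lemma dl_T : dl (PowerSeries.X : PowerSeries ℚ[X]) = 0 := by
  ext1 n; rw [coeff_dl, PowerSeries.coeff_X]; split_ifs <;> simp

lemma dl_mul (f g : PowerSeries ℚ[X]) : dl (f * g) = dl f * g + f * dl g := by
  ext1 n
  rw [coeff_dl, PowerSeries.coeff_mul, derivative_sum, map_add, PowerSeries.coeff_mul,
    PowerSeries.coeff_mul, ← Finset.sum_add_distrib]
  apply Finset.sum_congr rfl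
  intro p _
  rw [derivative_mul, coeff_dl, coeff_dl]

lemma dl_dT (f : PowerSeries ℚ[X]) : dl ((PowerSeries.derivative ℚ[X]) f) = (PowerSeries.derivative ℚ[X]) (dl f) := by
  ext1 n
  rw [coeff_dl, PowerSeries.coeff_derivative, PowerSeries.coeff_derivative, coeff_dl]
  have : derivative ((n : ℚ[X]) + 1) = 0 := by simp
  rw [derivative_mul, this, mul_zero, add_zero]

lemma dl_pow (f : PowerSeries ℚ[X]) (j : ℕ) : dl (f ^ (j + 1)) = ((j : PowerSeries ℚ[X]) + 1) *
    f ^ j * dl f := by
  induction j with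
  | zero => simp
  | succ j ih =>
    rw [pow_succ, dl_mul, ih]
    push_cast
    ring

lemma dT_pow (f : PowerSeries ℚ[X]) (j : ℕ) : (PowerSeries.derivative ℚ[X]) (f ^ (j + 1)) = ((j : PowerSeries ℚ[X]) + 1) *
    f ^ j * (PowerSeries.derivative ℚ[X]) f := gd_pow f j

lemma coeff_dT (f : PowerSeries ℚ[X]) (n : ℕ) :
    PowerSeries.coeff n ((PowerSeries.derivative ℚ[X]) f) = PowerSeries.coeff (n + 1) f * ((n : ℚ[X]) + 1) :=
  PowerSeries.coeff_derivative f n

lemma coeff_T2 (f : PowerSeries ℚ[X]) (n : ℕ) :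
    PowerSeries.coeff (n + 1) ((PowerSeries.X : PowerSeries ℚ[X]) ^ 2 * (PowerSeries.derivative ℚ[X]) f) = PowerSeries.coeff n f * (n : ℚ[X]) := by
  rw [pow_two, mul_assoc, PowerSeries.coeff_succ_X_mul]
  rcases n with _ | n
  · simp
  · rw [PowerSeries.coeff_succ_X_mul, coeff_dT]
    push_cast
    ring

/-- the linear equation -/
lemma eqa : (1 + (PowerSeries.X : PowerSeries ℚ[X])) * dl F + 1 = (PowerSeries.X : PowerSeries ℚ[X]) ^ 2 * (PowerSeries.derivative ℚ[X]) F := by
  ext1 n
  rcases n with _ | n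
  · rw [add_mul, one_mul, map_add, map_add, coeff_dl, pow_two, mul_assoc,
      PowerSeries.coeff_zero_X_mul, PowerSeries.coeff_zero_X_mul]
    simp [F, L]
  · rw [coeff_T2, add_mul, one_mul, map_add, map_add, coeff_dl, PowerSeries.coeff_succ_X_mul,
      coeff_dl, PowerSeries.coeff_one, if_neg (by omega)]
    simp only [F, PowerSeries.coeff_mk]
    rw [L_deriv]
    ring

lemma eqA1 : (1 + (PowerSeries.X : PowerSeries ℚ[X])) * dl (dl F) = (PowerSeries.X : PowerSeries ℚ[X]) ^ 2 * dl ((PowerSeries.derivative ℚ[X]) F) := by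
  have h := congrArg dl eqa
  rw [dl_add, dl_mul, dl_mul, dl_add, dl_one, dl_T, pow_two, dl_mul, dl_T] at h
  rw [pow_two]
  linear_combination h

lemma eqA2 : dl F + (1 + (PowerSeries.X : PowerSeries ℚ[X])) * dl ((PowerSeries.derivative ℚ[X]) F) = 2 * (PowerSeries.X : PowerSeries ℚ[X]) * (PowerSeries.derivative ℚ[X]) F + (PowerSeries.X : PowerSeries ℚ[X]) ^ 2 * (PowerSeries.derivative ℚ[X]) ((PowerSeries.derivative ℚ[X]) F) := by
  have h := congrArg (PowerSeries.derivative ℚ[X]) eqa
  rw [gd_add, gd_mul, gd_mul, gd_add, gd_one, gd_X, pow_two, gd_mul, gd_X] at h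
  rw [dl_dT]
  linear_combination h

/-- the defect of the quasilinear equation -/
noncomputable def W : PowerSeries ℚ[X] := (PowerSeries.derivative ℚ[X]) F * (1 + (PowerSeries.X : PowerSeries ℚ[X]) * F) - F * dl F

lemma W_eq : (1 + (PowerSeries.X : PowerSeries ℚ[X])) * dl W - (PowerSeries.X : PowerSeries ℚ[X]) ^ 2 * (PowerSeries.derivative ℚ[X]) W = (PowerSeries.X : PowerSeries ℚ[X]) * W := by
  have e1 : dl W = dl ((PowerSeries.derivative ℚ[X]) F) * (1 + (PowerSeries.X : PowerSeries ℚ[X]) * F) + (PowerSeries.derivative ℚ[X]) F * ((PowerSeries.X : PowerSeries ℚ[X]) * dl F) - (dl F * dl F + F * dl (dl F)) := by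
    unfold W
    rw [dl_sub, dl_mul, dl_mul, dl_add, dl_one, dl_mul, dl_T]
    ring
  have e2 : (PowerSeries.derivative ℚ[X]) W = (PowerSeries.derivative ℚ[X]) ((PowerSeries.derivative ℚ[X]) F) * (1 + (PowerSeries.X : PowerSeries ℚ[X]) * F) + (PowerSeries.derivative ℚ[X]) F * (F + (PowerSeries.X : PowerSeries ℚ[X]) * (PowerSeries.derivative ℚ[X]) F) -
      ((PowerSeries.derivative ℚ[X]) F * dl F + F * dl ((PowerSeries.derivative ℚ[X]) F)) := by
    unfold W
    rw [dl_dT, gd_sub, gd_mul, gd_mul, gd_add, gd_one, gd_mul, gd_X]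
    ring
  rw [e1, e2]
  unfold W
  linear_combination (1 + (PowerSeries.X : PowerSeries ℚ[X]) * F) * eqA2 - F * eqA1 + ((PowerSeries.X : PowerSeries ℚ[X]) * (PowerSeries.derivative ℚ[X]) F - dl F) * eqa

lemma W_eval (n : ℕ) : (PowerSeries.coeff n W).eval 0 = 0 := by
  have hF : PowerSeries.map (evalRingHom (0 : ℚ)) F = 0 := by
    ext m
    simp [F, L_eval_zero]
  have hdF : PowerSeries.map (evalRingHom (0 : ℚ)) ((PowerSeries.derivative ℚ[X]) F) = 0 := by
    ext m
    rw [PowerSeries.coeff_map, coeff_dT]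
    simp [F, L_eval_zero]
  have hW : PowerSeries.map (evalRingHom (0 : ℚ)) W = 0 := by
    unfold W
    rw [map_sub, map_mul, map_mul, hF, hdF]
    simp
  have := congrArg (PowerSeries.coeff n) hW
  rw [PowerSeries.coeff_map] at this
  simpa using this

lemma poly_zero (p : ℚ[X]) (h1 : derivative p = 0) (h2 : p.eval 0 = 0) : p = 0 := by
  have h3 := derivative_eq_zero.mp h1
  rw [eq_C_of_natDegree_eq_zero h3] at h2 ⊢
  simp at h2
  rw [h2, C_0]

lemma W_coeff (n : ℕ) : PowerSeries.coeff n W = 0 := by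
  induction n with
  | zero =>
    apply poly_zero _ _ (W_eval 0)
    have h := congrArg (PowerSeries.coeff 0) W_eq
    rw [map_sub, add_mul, one_mul, map_add, coeff_dl, PowerSeries.coeff_zero_X_mul,
      PowerSeries.coeff_zero_X_mul, pow_two, mul_assoc, PowerSeries.coeff_zero_X_mul] at h
    simpa using h
  | succ n ih =>
    apply poly_zero _ _ (W_eval (n + 1))
    have h := congrArg (PowerSeries.coeff (n + 1)) W_eq
    rw [map_sub, add_mul, one_mul, map_add, coeff_dl, PowerSeries.coeff_succ_X_mul,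
      PowerSeries.coeff_succ_X_mul, coeff_T2, coeff_dl, ih] at h
    simpa using h

lemma W_zero : W = 0 := by
  ext1 n; rw [W_coeff, map_zero]

/-- the recurrence in `n` and `k` -/
lemma key (j n : ℕ) : (((j : ℚ[X]) + 2) * ((n : ℚ[X]) + 1)) * Lk (n + 1) (j + 1) =
    ((j : ℚ[X]) + 1) * (derivative (Lk n (j + 2)) - (n : ℚ[X]) * Lk n (j + 2)) := by
  have hW := W_zero
  unfold W at hW
  have h1 : ((j : PowerSeries ℚ[X]) + 2) * (PowerSeries.derivative ℚ[X]) (F ^ (j + 1)) + ((j : PowerSeries ℚ[X]) + 1) *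
      ((PowerSeries.X : PowerSeries ℚ[X]) * (PowerSeries.derivative ℚ[X]) (F ^ (j + 2))) = ((j : PowerSeries ℚ[X]) + 1) * dl (F ^ (j + 2)) := by
    rw [dT_pow, dT_pow, dl_pow]
    push_cast
    linear_combination (((j : PowerSeries ℚ[X]) + 2) * ((j : PowerSeries ℚ[X]) + 1) * F ^ j) * hW
  have h2 := congrArg (PowerSeries.coeff n) h1
  have c1 : ∀ (m : ℕ) (g : PowerSeries ℚ[X]),
      PowerSeries.coeff n (((j : PowerSeries ℚ[X]) + (m : PowerSeries ℚ[X])) * g)
      = ((j : ℚ[X]) + (m : ℚ[X])) * PowerSeries.coeff n g := by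
    intro m g
    have : ((j : PowerSeries ℚ[X]) + (m : PowerSeries ℚ[X])) =
        PowerSeries.C ((j : ℚ[X]) + (m : ℚ[X])) := by simp
    rw [this, PowerSeries.coeff_C_mul]
  have c2 : PowerSeries.coeff n ((PowerSeries.X : PowerSeries ℚ[X]) * (PowerSeries.derivative ℚ[X]) (F ^ (j + 2))) = (n : ℚ[X]) * Lk n (j + 2) := by
    rcases n with _ | n
    · simp
    · rw [PowerSeries.coeff_succ_X_mul, coeff_dT]
      unfold Lk
      push_cast
      ring
  have c3 := c1 2
  have c4 := c1 1
  simp only [Nat.cast_ofNat, Nat.cast_one] at c3 c4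
  rw [map_add, c3, c4, c4, c2, coeff_dT, coeff_dl] at h2
  unfold Lk at h2 ⊢
  linear_combination h2

/-- the property propagated by the recurrence -/
def Good (p : ℚ[X]) : Prop :=
  1 ≤ p.natDegree ∧ ∀ z : ℂ, aeval z p = 0 → z.im = 0 ∧ 0 ≤ z.re

lemma good_step (p : ℚ[X]) (hp : Good p) (n : ℕ) :
    ∀ z : ℂ, aeval z (derivative p - (n : ℚ[X]) * p) = 0 → z.im = 0 ∧ 0 ≤ z.re := by
  obtain ⟨hd, hr⟩ := hp
  intro z hz
  by_cases hpz : aeval z p = 0
  · exact hr z hpz
  set P : ℂ[X] := p.map (algebraMap ℚ ℂ) with hP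
  have e0 : ∀ w : ℂ, aeval w p = P.eval w := by
    intro w; rw [hP, eval_map_algebraMap]
  have hPz : P.eval z ≠ 0 := by rwa [← e0]
  have hsum := (IsAlgClosed.splits P).eval_derivative_div_eval_of_ne_zero hPz
  have hder : (derivative P).eval z = (n : ℂ) * P.eval z := by
    rw [map_sub, map_mul, map_natCast, sub_eq_zero, e0] at hz
    rw [← hz, hP, derivative_map, eval_map_algebraMap]
  rw [hder, mul_div_assoc, div_self hPz, mul_one] at hsum
  have hP0 : P ≠ 0 := by rintro h; rw [h] at hPz; simp at hPz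
  have hroots : ∀ w ∈ P.roots, w.im = 0 ∧ 0 ≤ w.re := by
    intro w hw
    rw [mem_roots hP0, IsRoot.def, ← e0] at hw
    exact hr w hw
  have hne : ∀ w ∈ P.roots, z - w ≠ 0 := by
    intro w hw h
    rw [sub_eq_zero] at h
    rw [mem_roots hP0, IsRoot.def, ← h] at hw
    exact hPz hw
  have hM : P.roots ≠ 0 := by
    intro h
    have h1 := (IsAlgClosed.splits P).natDegree_eq_card_roots
    rw [h, Multiset.card_zero, hP, natDegree_map] at h1
    omega
  by_contra hcon
  rcases eq_or_ne z.im 0 with him | him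
  · -- z real negative
    have hre : z.re < 0 := by
      by_contra h
      push Not at h
      exact hcon ⟨him, h⟩
    have h1 := Pool.Agent.H635Z.sum_im_pos (-Complex.I) (fun w => 1 / (z - w)) P.roots (by
      intro w hw
      obtain ⟨h2, h3⟩ := hroots w hw
      have h4 : 0 < Complex.normSq (z - w) := Complex.normSq_pos.mpr (hne w hw)
      have h5 : (-Complex.I * (1 / (z - w))).im = -((z.re - w.re) / Complex.normSq (z - w)) := by
        rw [one_div, Complex.mul_im]
        simp [Complex.inv_re]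
      rw [h5]
      have : (z.re - w.re) / Complex.normSq (z - w) < 0 := div_neg_of_neg_of_pos (by linarith) h4
      linarith) hM
    rw [← hsum] at h1
    have h6 : (-Complex.I * (n : ℂ)).im = -(n : ℝ) := by simp
    rw [h6] at h1
    have : (0 : ℝ) ≤ n := Nat.cast_nonneg n
    linarith
  · have h1 := Pool.Agent.H635Z.sum_im_pos ((-z.im : ℝ) : ℂ) (fun w => 1 / (z - w)) P.roots (by
      intro w hw
      obtain ⟨h2, h3⟩ := hroots w hw
      have h4 : 0 < Complex.normSq (z - w) := Complex.normSq_pos.mpr (hne w hw)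
      have h5 : (((-z.im : ℝ) : ℂ) * (1 / (z - w))).im = z.im ^ 2 / Complex.normSq (z - w) := by
        rw [one_div, Complex.im_ofReal_mul, Complex.inv_im, Complex.sub_im, h2]
        ring
      rw [h5]
      positivity) hM
    rw [← hsum] at h1
    have h6 : (((-z.im : ℝ) : ℂ) * (n : ℂ)).im = 0 := by simp
    rw [h6] at h1
    exact lt_irrefl _ h1

lemma Lk_zero (j : ℕ) : Lk 0 (j + 1) = (-X) ^ (j + 1) := by
  unfold Lk
  rw [PowerSeries.coeff_zero_eq_constantCoeff, map_pow, ← PowerSeries.coeff_zero_eq_constantCoeff]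
  simp [F, L]

lemma main (n : ℕ) : ∀ j : ℕ, (Lk n (j + 1)).natDegree = (if n = 0 then j + 1 else n + j) ∧
    ∀ z : ℂ, aeval z (Lk n (j + 1)) = 0 → z.im = 0 ∧ 0 ≤ z.re := by
  induction n with
  | zero =>
    intro j
    rw [Lk_zero]
    refine ⟨?_, ?_⟩
    · rw [if_pos rfl, natDegree_pow, natDegree_neg, natDegree_X, mul_one]
    · intro z hz
      rw [map_pow, map_neg, aeval_X] at hz
      have h1 : -z = 0 := pow_eq_zero_iff (by omega) |>.mp hz
      have h2 : z = 0 := neg_eq_zero.mp h1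
      rw [h2]; simp
  | succ n ih =>
    intro j
    obtain ⟨hd, hr⟩ := ih (j + 1)
    rw [show j + 1 + 1 = j + 2 by ring] at hd hr
    have hk := key j n
    have hdpos : 1 ≤ (Lk n (j + 2)).natDegree := by
      rw [hd]; split_ifs <;> omega
    have e1 : (((j : ℚ[X]) + 2) * ((n : ℚ[X]) + 1)) = C (((j : ℚ) + 2) * ((n : ℚ) + 1)) := by
      have : (C (2 : ℚ) : ℚ[X]) = 2 := map_ofNat C 2
      rw [C_mul, C_add, C_add, C_eq_natCast, C_eq_natCast, this, C_1]
    have e2 : ((j : ℚ[X]) + 1) = C ((j : ℚ) + 1) := by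
      rw [C_add, C_eq_natCast, C_1]
    rw [e1, e2] at hk
    have n1 : (((j : ℚ) + 2) * ((n : ℚ) + 1)) ≠ 0 := by positivity
    have n2 : ((j : ℚ) + 1) ≠ 0 := by positivity
    refine ⟨?_, ?_⟩
    · rw [if_neg (by omega), ← natDegree_C_mul n1, hk, natDegree_C_mul n2]
      rcases Nat.eq_zero_or_pos n with h0 | h0
      · subst h0
        rw [Nat.cast_zero, zero_mul, sub_zero, natDegree_derivative, hd, if_pos rfl]
        omega
      · have h3 : ((n : ℚ[X]) * Lk n (j + 2)).natDegree = (Lk n (j + 2)).natDegree := by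
          rw [← C_eq_natCast, natDegree_C_mul (by exact_mod_cast h0.ne')]
        have h4 := natDegree_derivative_lt (p := Lk n (j + 2)) (by omega)
        rw [natDegree_sub_eq_right_of_natDegree_lt (by rw [h3]; exact h4), h3, hd,
          if_neg (by omega)]
        omega
    · intro z hz
      apply good_step (Lk n (j + 2)) ⟨hdpos, hr⟩ n z
      have h5 := congrArg (aeval z) hk
      rw [map_mul, hz, mul_zero, map_mul, aeval_C] at h5
      have h6 : (algebraMap ℚ ℂ) ((j : ℚ) + 1) ≠ 0 := by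
        rw [Ne, map_eq_zero]; exact n2
      exact (mul_eq_zero.mp h5.symm).resolve_left h6

/-- **First assertion of Q1**: for all `k ≥ 1` and `n ≥ 1` the polynomial `L_{n,k}` has degree
`n + k - 1` and all its complex roots are real and nonnegative. -/
theorem result : ∀ k : ℕ, 1 ≤ k → ∀ n : ℕ, 1 ≤ n →
    (Lk n k).natDegree = n + k - 1 ∧ Lk n k ≠ 0 ∧
    ∀ z : ℂ, aeval z (Lk n k) = 0 → z.im = 0 ∧ 0 ≤ z.re := by
  intro k hk n hn
  obtain ⟨j, rfl⟩ : ∃ j, k = j + 1 := ⟨k - 1, by omega⟩
  obtain ⟨h1, h2⟩ := main n j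
  rw [if_neg (by omega)] at h1
  refine ⟨by omega, ?_, h2⟩
  intro h0
  rw [h0, natDegree_zero] at h1
  omega

end Pool.Agent.Results.MP_5c4bc0_an.RealRooted
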